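import Pool.Agent.H32.N6W.Targets

/-!
# The place is determined by the polynomial
-/

set_option autoImplicit false

open Polynomial NumberField IsDedekindDomain Matrix Pool.Agent.H32.QC Pool.Agent.H34.N6
open Pool.Agent.H13.DEV Pool.Agent.H34.N6V Pool.Agent.H63.WT Pool.Agent.H32.N6W

namespace Pool.Agent.H38.N6W

/-- the map between the completions which is defined by the two evaluations -/
theorem din_core (F E E' : Type) [NontriviallyNormedField F] [CompleteSpace F] [NormedField E]
    [NormedField E'] (φ : F →+* E) (φ' : F →+* E') (hφ : Continuous φ) (hφ' : Continuous φ')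
    (e : E) (e' : E') (P : F[X]) (hP : P.Monic) (hP0 : eval₂ φ e P = 0)
    (hs : ∀ y, ∃ Q : F[X], eval₂ φ e Q = y)
    (hk : ∀ Q : F[X], eval₂ φ e Q = 0 → eval₂ φ' e' Q = 0) :
    ∃ g : E →+* E', Continuous g ∧ (∀ x, g (φ x) = φ' x) ∧ g e = e' := by
  have hsurj : Function.Surjective (eval₂RingHom φ e) := by
    intro y
    obtain ⟨Q, hQ⟩ := hs y
    exact ⟨Q, by rw [coe_eval₂RingHom]; exact hQ⟩
  have hker : RingHom.ker (eval₂RingHom φ e) ≤ RingHom.ker (eval₂RingHom φ' e') := by
    intro Q hQ
    rw [RingHom.mem_ker, coe_eval₂RingHom] at hQ ⊢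
    exact hk Q hQ
  obtain ⟨g, hg⟩ : ∃ g : E →+* E', ∀ Q : F[X], g (eval₂ φ e Q) = eval₂ φ' e' Q := by
    refine ⟨(eval₂RingHom φ e).liftOfSurjective hsurj ⟨eval₂RingHom φ' e', hker⟩, ?_⟩
    intro Q
    exact RingHom.liftOfRightInverse_comp_apply (eval₂RingHom φ e) _
      (Function.rightInverse_surjInv hsurj) ⟨eval₂RingHom φ' e', hker⟩ Q
  have h1 : ∀ x, g (φ x) = φ' x := by
    intro x
    have := hg (C x)
    rwa [eval₂_C, eval₂_C] at this
  have h2 : g e = e' := by
    have := hg X
    rwa [eval₂_X, eval₂_X] at this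
  refine ⟨g, ?_, h1, h2⟩
  let a1 : Algebra F E := φ.toAlgebra
  let a2 : Algebra F E' := φ'.toAlgebra
  have c1 : ContinuousSMul F E := ⟨by
    have : (fun p : F × E => p.1 • p.2) = fun p => φ p.1 * p.2 := by
      funext p
      exact Algebra.smul_def p.1 p.2
    rw [this]
    exact (hφ.comp continuous_fst).mul continuous_snd⟩
  have c2 : ContinuousSMul F E' := ⟨by
    have : (fun p : F × E' => p.1 • p.2) = fun p => φ' p.1 * p.2 := by
      funext p
      exact Algebra.smul_def p.1 p.2
    rw [this]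
    exact (hφ'.comp continuous_fst).mul continuous_snd⟩
  have hint : IsIntegral F e := ⟨P, hP, hP0⟩
  have htop : Algebra.adjoin F {e} = ⊤ := by
    rw [eq_top_iff]
    intro y _
    obtain ⟨Q, hQ⟩ := hs y
    rw [Algebra.adjoin_singleton_eq_range_aeval]
    exact ⟨Q, by rw [← hQ]; rfl⟩
  have fd : Module.Finite F E := by
    refine ⟨?_⟩
    have := hint.fg_adjoin_singleton
    rw [htop] at this
    simpa using this
  let gl : E →ₗ[F] E' :=
    { toFun := g
      map_add' := fun a b => map_add g a b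
      map_smul' := fun c x => by
        rw [Algebra.smul_def, map_mul, RingHom.id_apply, Algebra.smul_def]
        congr 1
        exact h1 c }
  exact LinearMap.continuous_of_finiteDimensional gl

theorem pf_DIN (hADC : Pool.Agent.H32.QC.T_ADC) (hUNQ : T_UNQ) : T_DIN := by
  intro k L _ _ _ _ _ P e v w w' φ φ' hPm hG hφ hφx hφ' hφx' hs hk
  obtain ⟨hpr, hch, x0, hx0⟩ := hADC k v
  let nn : NontriviallyNormedField (v.adicCompletion k) :=
    { (inferInstance : NormedField (v.adicCompletion k)) with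
      non_trivial := ⟨x0, hx0⟩ }
  have hev : ∀ (w1 : FPl L) (ψ : v.adicCompletion k →+* w1.adicCompletion L),
      (∀ x : k, ψ (ic v x) = kc k w1 x) → ∀ Q : k[X],
      eval₂ ψ (ic w1 e) (Q.map (ic v)) = ic w1 (aeval e Q) := by
    intro w1 ψ hψ Q
    rw [eval₂_map]
    have : ψ.comp (ic v) = (ic w1).comp (algebraMap k L) := by
      apply RingHom.ext
      intro x
      exact hψ x
    rw [this, aeval_def]
    exact (hom_eval₂ Q (algebraMap k L) (ic w1) e).symm
  have hP0 : eval₂ φ (ic w e) (P.map (ic v)) = 0 := by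
    rw [hev w φ hφx P, ← hG.mp, minpoly.aeval, map_zero]
  obtain ⟨g, hgc, hg1, hg2⟩ := @din_core (v.adicCompletion k) (w.adicCompletion L)
    (w'.adicCompletion L) nn (by
      have := hpr
      exact complete_of_proper) _ _ φ φ' hφ hφ' (ic w e) (ic w' e) (P.map (ic v))
      (hPm.map _) hP0 hs hk
  have hgx : ∀ x : L, g (ic w x) = ic w' x := by
    intro x
    have hint : IsIntegral k e := Algebra.IsIntegral.isIntegral e
    have hx : x ∈ Algebra.adjoin k {e} := by
      have h1 : x ∈ IntermediateField.adjoin k {e} := by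
        rw [hG.adj]
        trivial
      have h2 : (IntermediateField.adjoin k {e}).toSubalgebra = Algebra.adjoin k {e} :=
        IntermediateField.adjoin_simple_toSubalgebra_of_isAlgebraic hint.isAlgebraic
      rw [← h2]
      exact h1
    rw [Algebra.adjoin_singleton_eq_range_aeval] at hx
    obtain ⟨Q, hQ⟩ := hx
    have hQ' : aeval e Q = x := hQ
    rw [← hQ', ← hev w φ hφx Q, ← hev w' φ' hφx' Q]
    rw [hom_eval₂, hg2]
    congr 1
    apply RingHom.ext
    intro y
    exact hg1 y
  refine hUNQ L w' w ?_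
  intro x hx
  have h0 : Filter.Tendsto (fun n : ℕ => (ic w x) ^ n) Filter.atTop (nhds 0) :=
    tendsto_pow_atTop_nhds_zero_of_norm_lt_one hx
  have h1 : Filter.Tendsto (fun n : ℕ => g ((ic w x) ^ n)) Filter.atTop (nhds (g 0)) :=
    (hgc.tendsto 0).comp h0
  have h2 : Filter.Tendsto (fun n : ℕ => (ic w' x) ^ n) Filter.atTop (nhds 0) := by
    rw [map_zero] at h1
    refine h1.congr fun n => ?_
    rw [map_pow, hgx]
  exact (tendsto_pow_atTop_nhds_zero_iff_norm_lt_one).1 h2

end Pool.Agent.H38.N6W
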